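import Pool.Agent.KS6_22.TBP.S.Base

/-!
Scaling, repetition and reflection of loops.
-/

set_option autoImplicit false

namespace Pool.Agent.KS6_22.TBP.S.Scale

open Pool.Agent.KS6_22.TBP.H Pool.Agent.KS6_22.TBP.S.Base

/-- loops in the class `(k, 0, -k)` -/
structure InClassK (m : Fin 3 → ℝ) (T : ℝ) (k : ℤ) (x v : Fin 3 → ℝ → ℂ) : Prop where
  deriv : ∀ i t, HasDerivAt (x i) (v i t) t
  cont : ∀ i, Continuous (v i)
  centre : ∀ t, ∑ i, (m i : ℂ) * x i t = 0
  periodic : ∀ i t, x i (t + T) = x i t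
  collisionFree : ∀ i j, i ≠ j → ∀ t, x i t ≠ x j t
  deg12 : HasDegree (fun t => x 0 t - x 1 t) T k
  deg23 : HasDegree (fun t => x 1 t - x 2 t) T 0
  deg31 : HasDegree (fun t => x 2 t - x 0 t) T (-k)

theorem angle_of_degree {γ : ℝ → ℂ} {T : ℝ} {k : ℤ} (h : HasDegree γ T k) :
    HasAngle γ 0 T (2 * Real.pi * k) := h

theorem degree_of_hasAngle {γ : ℝ → ℂ} {T : ℝ} {k : ℤ} (h : HasAngle γ 0 T (2 * Real.pi * k)) :
    HasDegree γ T k := h

theorem angle_shift {γ : ℝ → ℂ} {T Δ : ℝ} (h : HasAngle γ 0 T Δ)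
    (hp : ∀ t, γ (t + T) = γ t) (n : ℕ) : HasAngle γ (T * n) (T * n + T) Δ := by
  obtain ⟨φ, h1, h2, h3⟩ := h
  have hp' : ∀ (n : ℕ) (t : ℝ), γ (t + T * n) = γ t := by
    intro n
    induction n with
    | zero => intro t; simp
    | succ n ih =>
      intro t
      rw [show t + T * ((n + 1 : ℕ) : ℝ) = (t + T * n) + T by push_cast; ring, hp, ih]
  have hm : Set.MapsTo (fun t => t - T * n) (Set.Icc (T * n) (T * n + T)) (Set.Icc 0 T) := by
    intro t ht
    constructor <;> simp only <;> linarith [ht.1, ht.2]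
  refine ⟨fun t => φ (t - T * n), h1.comp (by fun_prop) hm, fun t ht => ?_, ?_⟩
  · have h4 := h2 _ (hm ht)
    have h5 : γ (t - T * n) = γ t := by
      have := hp' n (t - T * n)
      rw [sub_add_cancel] at this
      exact this.symm
    simp only at h4
    rw [h5] at h4
    exact h4
  · simp only
    rw [show T * (n : ℝ) + T - T * n = T by ring, sub_self, h3]

theorem angle_iter {γ : ℝ → ℂ} {T : ℝ} {d : ℤ} (hT : 0 ≤ T) (h : HasDegree γ T d)
    (hp : ∀ t, γ (t + T) = γ t) (h0 : ∀ t, γ t ≠ 0) (n : ℕ) :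
    HasAngle γ 0 (T * ((n + 1 : ℕ) : ℝ)) (2 * Real.pi * ((d * ((n + 1 : ℕ) : ℤ) : ℤ) : ℝ)) := by
  induction n with
  | zero => simpa using angle_of_degree h
  | succ n ih =>
    have h1 := HasAngle.concat (b := T * ((n + 1 : ℕ) : ℝ)) (by positivity)
      (by linarith : T * ((n + 1 : ℕ) : ℝ) ≤ T * ((n + 1 : ℕ) : ℝ) + T) (h0 _) ih
      (angle_shift (angle_of_degree h) hp (n + 1))
    have e1 : T * ((n + 1 + 1 : ℕ) : ℝ) = T * ((n + 1 : ℕ) : ℝ) + T := by push_cast; ring
    have e2 : 2 * Real.pi * ((d * ((n + 1 + 1 : ℕ) : ℤ) : ℤ) : ℝ) =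
        2 * Real.pi * ((d * ((n + 1 : ℕ) : ℤ) : ℤ) : ℝ) + 2 * Real.pi * d := by
      push_cast; ring
    rw [e1, e2]
    exact h1

theorem angle_rescale {γ : ℝ → ℂ} {T T' Δ a s : ℝ} (ha : 0 < a) (hs : 0 < s)
    (hT : s * T' = T) (h : HasAngle γ 0 T Δ) :
    HasAngle (fun t => (a : ℂ) * γ (s * t)) 0 T' Δ := by
  obtain ⟨φ, h1, h2, h3⟩ := h
  have hm : Set.MapsTo (fun t => s * t) (Set.Icc 0 T') (Set.Icc 0 T) := by
    intro t ht
    constructor
    · exact mul_nonneg hs.le ht.1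
    · rw [← hT]; exact mul_le_mul_of_nonneg_left ht.2 hs.le
  refine ⟨fun t => φ (s * t), h1.comp (by fun_prop) hm, fun t ht => ?_, ?_⟩
  · have h4 := h2 _ (hm ht)
    simp only at h4 ⊢
    have h5 : ‖(a : ℂ) * γ (s * t)‖ = a * ‖γ (s * t)‖ := by
      rw [norm_mul, Complex.norm_real, Real.norm_of_nonneg ha.le]
    rw [h5]
    conv_lhs => rw [h4]
    push_cast
    ring
  · simp only
    rw [hT, mul_zero, h3]

theorem vel_periodic {x v : ℝ → ℂ} {T : ℝ} (hd : ∀ t, HasDerivAt x (v t) t)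
    (hp : ∀ t, x (t + T) = x t) (t : ℝ) : v (t + T) = v t := by
  have h1 : HasDerivAt (fun t => x (t + T)) (v (t + T)) t := (hd (t + T)).comp_add_const t T
  have h2 : (fun t => x (t + T)) = x := funext hp
  rw [h2] at h1
  exact h1.unique (hd t)

/-- the rescaled loop -/
noncomputable def sx (a s : ℝ) (x : Fin 3 → ℝ → ℂ) (i : Fin 3) (t : ℝ) : ℂ := (a : ℂ) * x i (s * t)

theorem sx_deriv {a s : ℝ} {x v : Fin 3 → ℝ → ℂ} (hd : ∀ i t, HasDerivAt (x i) (v i t) t)
    (i : Fin 3) (t : ℝ) : HasDerivAt (sx a s x i) (sx (a * s) s v i t) t := by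
  have h1 : HasDerivAt (fun t : ℝ => s * t) s t := by
    simpa using (hasDerivAt_id t).const_mul s
  have h2 := (HasDerivAt.scomp t (hd i (s * t)) h1).const_mul (a : ℂ)
  refine h2.congr_deriv ?_
  simp only [sx, Complex.real_smul]
  push_cast
  ring

theorem sx_solution {a s c : ℝ} {m : Fin 3 → ℝ} {x v : Fin 3 → ℝ → ℂ} (ha : 0 < a)
    (hc : a ^ 3 * s ^ 2 = c) (h : IsSolution m x v) :
    IsSolution (fun i => c * m i) (sx a s x) (sx (a * s) s v) := by
  refine ⟨sx_deriv h.1, fun i t => ?_⟩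
  have h1 : HasDerivAt (fun t : ℝ => s * t) s t := by
    simpa using (hasDerivAt_id t).const_mul s
  have h2 := (HasDerivAt.scomp t (h.2 i (s * t)) h1).const_mul ((a * s : ℝ) : ℂ)
  refine h2.congr_deriv ?_
  rw [Complex.real_smul, Finset.mul_sum, Finset.mul_sum]
  refine Finset.sum_congr rfl fun j _ => ?_
  have e1 : sx a s x j t - sx a s x i t = (a : ℂ) * (x j (s * t) - x i (s * t)) := by
    simp only [sx]; ring
  have e2 : ‖sx a s x j t - sx a s x i t‖ = a * ‖x j (s * t) - x i (s * t)‖ := by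
    rw [e1, norm_mul, Complex.norm_real, Real.norm_of_nonneg ha.le]
  rw [e2, e1, ← hc]
  have haC : (a : ℂ) ≠ 0 := by exact_mod_cast ha.ne'
  by_cases h0 : x j (s * t) - x i (s * t) = 0
  · rw [h0]; simp
  · have h3 : ((‖x j (s * t) - x i (s * t)‖ : ℝ) : ℂ) ≠ 0 := by
      exact_mod_cast norm_ne_zero_iff.2 h0
    push_cast
    field_simp

theorem sx_class {a s c T : ℝ} {m : Fin 3 → ℝ} {x v : Fin 3 → ℝ → ℂ} (ha : 0 < a) (hs : 0 < s)
    (n : ℕ) (hT : s * T = 8 * ((n + 1 : ℕ) : ℝ)) (h : InClass m 8 x v) :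
    InClassK (fun i => c * m i) T ((n + 1 : ℕ) : ℤ) (sx a s x) (sx (a * s) s v) := by
  have haC : (a : ℂ) ≠ 0 := by exact_mod_cast ha.ne'
  have hper : ∀ (i : Fin 3) (n : ℕ) (t : ℝ), x i (t + 8 * n) = x i t := by
    intro i n
    induction n with
    | zero => intro t; simp
    | succ n ih =>
      intro t
      rw [show t + 8 * ((n + 1 : ℕ) : ℝ) = (t + 8 * n) + 8 by push_cast; ring, h.periodic, ih]
  have hdeg : ∀ (i j : Fin 3) (d : ℤ), i ≠ j → HasDegree (fun t => x i t - x j t) 8 d →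
      HasDegree (fun t => sx a s x i t - sx a s x j t) T (d * ((n + 1 : ℕ) : ℤ)) := by
    intro i j d hij hd
    have h1 := angle_iter (by norm_num) hd
      (fun t => by show x i (t + 8) - x j (t + 8) = x i t - x j t; rw [h.periodic, h.periodic])
      (fun t => sub_ne_zero.2 (h.collisionFree i j hij t)) n
    have h2 := angle_rescale ha hs hT h1
    refine degree_of_hasAngle (h2.congr fun t _ => ?_)
    simp only [sx]
    ring
  refine ⟨sx_deriv h.deriv, fun i => ?_, fun t => ?_, fun i t => ?_, fun i j hij t => ?_, ?_, ?_, ?_⟩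
  · exact continuous_const.mul ((h.cont i).comp (continuous_const.mul continuous_id))
  · have h1 := h.centre (s * t)
    have h2 : ∑ i, (((c * m i : ℝ)) : ℂ) * sx a s x i t =
        ((c : ℂ) * a) * ∑ i, (m i : ℂ) * x i (s * t) := by
      rw [Finset.mul_sum]
      refine Finset.sum_congr rfl fun i _ => ?_
      simp only [sx]
      push_cast
      ring
    rw [h2, h1, mul_zero]
  · simp only [sx]
    rw [mul_add, hT, hper]
  · simp only [sx]
    intro he
    exact h.collisionFree i j hij _ (mul_left_cancel₀ haC he)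
  · simpa using hdeg 0 1 1 (by decide) h.deg12
  · simpa using hdeg 1 2 0 (by decide) h.deg23
  · simpa using hdeg 2 0 (-1) (by decide) h.deg31

/-- the Lagrangian -/
noncomputable def lag (m : Fin 3 → ℝ) (x v : Fin 3 → ℝ → ℂ) (t : ℝ) : ℝ :=
  (m 0 * ‖v 0 t‖ ^ 2 + m 1 * ‖v 1 t‖ ^ 2 + m 2 * ‖v 2 t‖ ^ 2) / 2 +
    (m 0 * m 1 / ‖x 0 t - x 1 t‖ + m 1 * m 2 / ‖x 1 t - x 2 t‖ + m 2 * m 0 / ‖x 2 t - x 0 t‖)

theorem sx_action {a s c T : ℝ} {m : Fin 3 → ℝ} {x v : Fin 3 → ℝ → ℂ} (ha : 0 < a) (hs : 0 < s)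
    (hc : a ^ 3 * s ^ 2 = c) (n : ℕ) (hT : s * T = 8 * ((n + 1 : ℕ) : ℝ))
    (h : InClass m 8 x v) :
    action (fun i => c * m i) T (sx a s x) (sx (a * s) s v) =
      (c * a ^ 2 * s * ((n + 1 : ℕ) : ℝ)) * action m 8 x v := by
  have hlag : ∀ t, lag (fun i => c * m i) (sx a s x) (sx (a * s) s v) t =
      (c * a ^ 2 * s ^ 2) * lag m x v (s * t) := by
    intro t
    have hv : ∀ i, ‖sx (a * s) s v i t‖ = a * s * ‖v i (s * t)‖ := by
      intro i
      simp only [sx]
      rw [norm_mul, Complex.norm_real, Real.norm_of_nonneg (mul_pos ha hs).le]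
    have hx : ∀ i j, ‖sx a s x i t - sx a s x j t‖ = a * ‖x i (s * t) - x j (s * t)‖ := by
      intro i j
      simp only [sx]
      rw [← mul_sub, norm_mul, Complex.norm_real, Real.norm_of_nonneg ha.le]
    have hn : ∀ i j, i ≠ j → ‖x i (s * t) - x j (s * t)‖ ≠ 0 := fun i j hij =>
      norm_ne_zero_iff.2 (sub_ne_zero.2 (h.collisionFree i j hij _))
    have n01 := hn 0 1 (by decide)
    have n12 := hn 1 2 (by decide)
    have n20 := hn 2 0 (by decide)
    simp only [lag, hv, hx]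
    rw [← hc]
    field_simp
  have hcx : ∀ i, Continuous (x i) := fun i =>
    continuous_iff_continuousAt.2 fun t => (h.deriv i t).continuousAt
  have hn : ∀ i j, i ≠ j → ∀ t, ‖x i t - x j t‖ ≠ 0 := fun i j hij t =>
    norm_ne_zero_iff.2 (sub_ne_zero.2 (h.collisionFree i j hij _))
  have hcl : Continuous (lag m x v) := by
    unfold lag
    refine Continuous.add ?_ ?_
    · refine Continuous.div_const ?_ 2
      exact ((continuous_const.mul ((h.cont 0).norm.pow 2)).add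
        (continuous_const.mul ((h.cont 1).norm.pow 2))).add
        (continuous_const.mul ((h.cont 2).norm.pow 2))
    · exact ((continuous_const.div ((hcx 0).sub (hcx 1)).norm (hn 0 1 (by decide))).add
        (continuous_const.div ((hcx 1).sub (hcx 2)).norm (hn 1 2 (by decide)))).add
        (continuous_const.div ((hcx 2).sub (hcx 0)).norm (hn 2 0 (by decide)))
  have hpl : Function.Periodic (lag m x v) 8 := by
    intro t
    simp only [lag]
    rw [h.periodic, h.periodic, h.periodic, vel_periodic (h.deriv 0) (h.periodic 0),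
      vel_periodic (h.deriv 1) (h.periodic 1), vel_periodic (h.deriv 2) (h.periodic 2)]
  have hint : ∀ n : ℕ, ∫ t in (0:ℝ)..(8 * n), lag m x v t = n * ∫ t in (0:ℝ)..8, lag m x v t := by
    intro n
    induction n with
    | zero => simp
    | succ n ih =>
      have h1 : ∫ t in (8 * n : ℝ)..(8 * ((n + 1 : ℕ) : ℝ)), lag m x v t =
          ∫ t in (0:ℝ)..8, lag m x v t := by
        have h2 := hpl.intervalIntegral_add_eq (8 * n) 0
        rw [zero_add] at h2
        rw [← h2]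
        congr 1
        push_cast
        ring
      rw [← intervalIntegral.integral_add_adjacent_intervals (hcl.intervalIntegrable _ _)
        (hcl.intervalIntegrable _ _), ih, h1]
      push_cast
      ring
  have e1 : action (fun i => c * m i) T (sx a s x) (sx (a * s) s v) =
      ∫ t in (0:ℝ)..T, lag (fun i => c * m i) (sx a s x) (sx (a * s) s v) t := rfl
  have e2 : action m 8 x v = ∫ t in (0:ℝ)..8, lag m x v t := rfl
  rw [e1, e2]
  simp only [hlag]
  rw [intervalIntegral.integral_const_mul, intervalIntegral.integral_comp_mul_left _ hs.ne',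
    mul_zero, hT, hint (n + 1), smul_eq_mul]
  field_simp

/-- reflection of a loop -/
noncomputable def cx (x : Fin 3 → ℝ → ℂ) (i : Fin 3) (t : ℝ) : ℂ := (starRingEnd ℂ) (x i t)

theorem cx_deriv {x v : ℝ → ℂ} {t : ℝ} {d : ℂ} (hd : HasDerivAt x d t) :
    HasDerivAt (fun t => (starRingEnd ℂ) (x t)) ((starRingEnd ℂ) d) t :=
  (Complex.conjCLE : ℂ →L[ℝ] ℂ).hasFDerivAt.comp_hasDerivAt t hd

theorem cx_degree {γ : ℝ → ℂ} {T : ℝ} {k : ℤ} (h : HasDegree γ T k) :
    HasDegree (fun t => (starRingEnd ℂ) (γ t)) T (-k) := by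
  obtain ⟨φ, h1, h2, h3⟩ := h
  refine ⟨fun t => -φ t, h1.neg, fun t ht => ?_, ?_⟩
  · have h4 := h2 t ht
    simp only
    rw [RCLike.norm_conj]
    conv_lhs => rw [h4]
    rw [map_mul, Complex.conj_ofReal, ← Complex.exp_conj]
    simp
  · simp only
    push_cast
    linarith

theorem cx_solution {m : Fin 3 → ℝ} {x v : Fin 3 → ℝ → ℂ} (h : IsSolution m x v) :
    IsSolution m (cx x) (cx v) := by
  refine ⟨fun i t => cx_deriv (v := v i) (h.1 i t), fun i t => ?_⟩
  refine (cx_deriv (v := v i) (h.2 i t)).congr_deriv ?_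
  rw [map_sum]
  refine Finset.sum_congr rfl fun j _ => ?_
  have e1 : cx x j t - cx x i t = (starRingEnd ℂ) (x j t - x i t) := by
    simp only [cx, map_sub]
  rw [e1, RCLike.norm_conj, map_div₀, map_mul, map_pow, Complex.conj_ofReal, Complex.conj_ofReal]

theorem cx_class {m : Fin 3 → ℝ} {T : ℝ} {k : ℤ} {x v : Fin 3 → ℝ → ℂ} (h : InClassK m T k x v) :
    InClassK m T (-k) (cx x) (cx v) := by
  refine ⟨fun i t => cx_deriv (v := v i) (h.deriv i t), fun i => ?_, fun t => ?_, fun i t => ?_,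
    fun i j hij t => ?_, ?_, ?_, ?_⟩
  · exact Complex.continuous_conj.comp (h.cont i)
  · have h1 := congrArg (starRingEnd ℂ) (h.centre t)
    rw [map_sum, map_zero] at h1
    rw [← h1]
    refine Finset.sum_congr rfl fun i _ => ?_
    rw [map_mul, Complex.conj_ofReal]
    rfl
  · simp only [cx]
    rw [h.periodic]
  · simp only [cx]
    intro he
    exact h.collisionFree i j hij t ((starRingEnd ℂ).injective he)
  · have h1 := cx_degree h.deg12
    simp only [map_sub] at h1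
    exact h1
  · have h1 := cx_degree h.deg23
    simp only [map_sub, neg_zero] at h1
    exact h1
  · have h1 := cx_degree h.deg31
    simp only [map_sub] at h1
    exact h1

theorem cx_action (m : Fin 3 → ℝ) (T : ℝ) (x v : Fin 3 → ℝ → ℂ) :
    action m T (cx x) (cx v) = action m T x v := by
  have e1 : ∀ i t, ‖cx v i t‖ = ‖v i t‖ := fun i t => by simp only [cx]; rw [RCLike.norm_conj]
  have e2 : ∀ i j t, ‖cx x i t - cx x j t‖ = ‖x i t - x j t‖ := fun i j t => by
    simp only [cx]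
    rw [← map_sub, RCLike.norm_conj]
  have e3 : ∀ t, (m 0 * ‖cx v 0 t‖ ^ 2 + m 1 * ‖cx v 1 t‖ ^ 2 + m 2 * ‖cx v 2 t‖ ^ 2) / 2 +
      (m 0 * m 1 / ‖cx x 0 t - cx x 1 t‖ + m 1 * m 2 / ‖cx x 1 t - cx x 2 t‖ +
        m 2 * m 0 / ‖cx x 2 t - cx x 0 t‖) =
      (m 0 * ‖v 0 t‖ ^ 2 + m 1 * ‖v 1 t‖ ^ 2 + m 2 * ‖v 2 t‖ ^ 2) / 2 +
      (m 0 * m 1 / ‖x 0 t - x 1 t‖ + m 1 * m 2 / ‖x 1 t - x 2 t‖ +
        m 2 * m 0 / ‖x 2 t - x 0 t‖) := fun t => by simp only [e1, e2]
  exact intervalIntegral.integral_congr fun t _ => e3 t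

end Pool.Agent.KS6_22.TBP.S.Scale
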